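import Mathlib
import Pool.Agent.MP_d2ef9c_co.H76.Discharge

set_option autoImplicit false

namespace Pool.Agent.Results.MP_d2ef9c_co.FourNinths

open Pool.Agent.MP_d2ef9c_co.H76 Filter Topology

/-- Vertex set of the triangular grid `T_n`. -/
def Vert (n : ℕ) : Type := {p : ℤ × ℤ // 0 ≤ p.1 ∧ 0 ≤ p.2 ∧ p.1 + p.2 ≤ (n : ℤ)}

/-- The triangular grid `T_n`. -/
def triGrid (n : ℕ) : SimpleGraph (Vert n) where
  Adj p q :=
    (p.1.2 = q.1.2 ∧ |p.1.1 - q.1.1| = 1) ∨ (p.1.1 = q.1.1 ∧ |p.1.2 - q.1.2| = 1) ∨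
      (p.1.1 - q.1.1 = q.1.2 - p.1.2 ∧ (p.1.1 - q.1.1 = 1 ∨ p.1.1 - q.1.1 = -1))
  symm := ⟨fun p q h => by
    rcases h with ⟨h1, h2⟩ | ⟨h1, h2⟩ | ⟨h1, h2⟩
    · exact Or.inl ⟨h1.symm, by rw [abs_sub_comm]; exact h2⟩
    · exact Or.inr (Or.inl ⟨h1.symm, by rw [abs_sub_comm]; exact h2⟩)
    · exact Or.inr (Or.inr ⟨by omega, by omega⟩)⟩
  loopless := ⟨fun p h => by
    rcases h with ⟨_, h2⟩ | ⟨_, h2⟩ | ⟨_, h2⟩
    · simp at h2
    · simp at h2
    · omega⟩

/-- `S` is an indeque set: every connected component of the induced subgraph `G[S]` is complete. -/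
def IsIndeque {V : Type} (G : SimpleGraph V) (S : Set V) : Prop :=
  ∀ c : (G.induce S).ConnectedComponent, (G.induce S).IsClique c.supp

/-- The indeque number: the largest size of an indeque set. -/
noncomputable def indequeNum {V : Type} (G : SimpleGraph V) : ℕ :=
  sSup {k : ℕ | ∃ S : Finset V, IsIndeque G (S : Set V) ∧ S.card = k}

lemma indeque_iff {V : Type} (G : SimpleGraph V) (S : Set V) : IsIndeque G S ↔
    ∀ a ∈ S, ∀ b ∈ S, ∀ c ∈ S, G.Adj a b → G.Adj b c → a ≠ c → G.Adj a c := by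
  constructor
  · intro h a ha b hb c hc hab hbc hac
    have h1 : (G.induce S).Adj ⟨a, ha⟩ ⟨b, hb⟩ := hab
    have h2 : (G.induce S).Adj ⟨b, hb⟩ ⟨c, hc⟩ := hbc
    have := h ((G.induce S).connectedComponentMk ⟨b, hb⟩)
      (x := ⟨a, ha⟩) ((SimpleGraph.ConnectedComponent.mem_supp_iff _ _).2
        (SimpleGraph.ConnectedComponent.sound h1.reachable))
      (y := ⟨c, hc⟩) ((SimpleGraph.ConnectedComponent.mem_supp_iff _ _).2
        (SimpleGraph.ConnectedComponent.sound h2.symm.reachable))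
      (fun e => hac (congrArg Subtype.val e))
    exact this
  · intro h
    have key : ∀ a b : S, (G.induce S).Reachable a b → a = b ∨ (G.induce S).Adj a b := by
      rintro a b ⟨w⟩
      induction w with
      | nil => exact Or.inl rfl
      | @cons u v x huv _ ih =>
        rcases ih with rfl | hvx
        · exact Or.inr huv
        · by_cases hux : u = x
          · exact Or.inl hux
          · exact Or.inr (h u u.2 v v.2 x x.2 huv hvx (fun e => hux (Subtype.ext e)))
    intro c a ha b hb hab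
    rw [SimpleGraph.ConnectedComponent.mem_supp_iff] at ha hb
    have : (G.induce S).Reachable a b := SimpleGraph.ConnectedComponent.exact (ha.trans hb.symm)
    rcases key a b this with e | e
    · exact absurd e hab
    · exact e

lemma adj_iff (n : ℕ) (p q : Vert n) :
    (triGrid n).Adj p q ↔ adjB (p.1.1 - q.1.1) (p.1.2 - q.1.2) = true := by
  show (p.1.2 = q.1.2 ∧ |p.1.1 - q.1.1| = 1) ∨ (p.1.1 = q.1.1 ∧ |p.1.2 - q.1.2| = 1) ∨
      (p.1.1 - q.1.1 = q.1.2 - p.1.2 ∧ (p.1.1 - q.1.1 = 1 ∨ p.1.1 - q.1.1 = -1)) ↔ _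
  rw [abs_eq (by norm_num : (0 : ℤ) ≤ 1), abs_eq (by norm_num : (0 : ℤ) ≤ 1)]
  unfold adjB
  simp only [Bool.or_eq_true, Bool.and_eq_true, beq_iff_eq]
  omega

def vertEquiv (n : ℕ) : Vert n ≃ tri n where
  toFun p := ⟨p.1, (mem_tri n p.1).2 p.2⟩
  invFun p := ⟨p.1, (mem_tri n p.1).1 p.2⟩
  left_inv _ := rfl
  right_inv _ := rfl

lemma card_vert (n : ℕ) : 2 * Nat.card (Vert n) = (n + 1) * (n + 2) := by
  rw [Nat.card_congr (vertEquiv n), Nat.card_eq_fintype_card, Fintype.card_coe, card_tri]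

lemma finite_vert (n : ℕ) : Finite (Vert n) := Finite.of_equiv _ (vertEquiv n).symm

lemma indeque_of_P3free (n : ℕ) {x : ℤ → ℤ → Bool} (hx : P3free x) :
    IsIndeque (triGrid n) {p : Vert n | x p.1.1 p.1.2 = true} := by
  rw [indeque_iff]
  intro a ha b hb c hc hab hbc hac
  rw [adj_iff] at *
  by_contra hn
  have hne : (a.1.1 == c.1.1 && a.1.2 == c.1.2) = false := by
    rw [Bool.eq_false_iff]
    intro h
    simp only [Bool.and_eq_true, beq_iff_eq] at h
    exact hac (Subtype.ext (Prod.ext h.1 h.2))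
  have := hx a.1.1 a.1.2 b.1.1 b.1.2 c.1.1 c.1.2 (by
    unfold isP3
    rw [hab, hbc, hne, Bool.eq_false_iff.2 hn]; rfl)
  have ha' : x a.1.1 a.1.2 = true := ha
  have hb' : x b.1.1 b.1.2 = true := hb
  have hc' : x c.1.1 c.1.2 = true := hc
  rw [ha', hb', hc'] at this
  exact absurd this (by decide)

lemma bdd {V : Type} [Finite V] (G : SimpleGraph V) :
    BddAbove {k : ℕ | ∃ S : Finset V, IsIndeque G (S : Set V) ∧ S.card = k} := by
  have := Fintype.ofFinite V
  refine ⟨Fintype.card V, ?_⟩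
  rintro k ⟨T, -, rfl⟩
  exact T.card_le_univ

lemma le_indequeNum {V : Type} [Finite V] (G : SimpleGraph V) (S : Finset V)
    (h : IsIndeque G (S : Set V)) : S.card ≤ indequeNum G :=
  le_csSup (bdd G) ⟨S, h, rfl⟩

lemma lower (n : ℕ) : 4 * Nat.card (Vert n) ≤ 9 * indequeNum (triGrid n) := by
  classical
  have := finite_vert n
  have := Fintype.ofFinite (Vert n)
  let S : Fin 9 × Fin 9 → Finset (Vert n) := fun st =>
    Finset.univ.filter (fun p => pat ((st.1 : ℕ) + p.1.1) ((st.2 : ℕ) + p.1.2) = true)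
  have hS : ∀ st, (S st).card ≤ indequeNum (triGrid n) := by
    intro st
    apply le_indequeNum
    have := indeque_of_P3free n (P3free_shift pat_P3free (st.1 : ℕ) (st.2 : ℕ))
    convert this using 1
    ext p
    simp [S]
  have hsum : ∑ st, (S st).card = 36 * Fintype.card (Vert n) := by
    have h1 : ∀ st, (S st).card = ∑ p : Vert n,
        if pat ((st.1 : ℕ) + p.1.1) ((st.2 : ℕ) + p.1.2) = true then 1 else 0 := by
      intro st
      simp only [S]
      rw [Finset.card_filter]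
    simp only [h1]
    rw [Finset.sum_comm]
    have h2 : ∀ p : Vert n, (∑ st : Fin 9 × Fin 9,
        if pat ((st.1 : ℕ) + p.1.1) ((st.2 : ℕ) + p.1.2) = true then 1 else 0) = 36 := by
      intro p
      rw [← Finset.card_filter]
      exact count_shifts _ _
    simp only [h2]
    simp [mul_comm]
  have hle : ∑ st, (S st).card ≤ 81 * indequeNum (triGrid n) := by
    calc ∑ st, (S st).card ≤ ∑ _st : Fin 9 × Fin 9, indequeNum (triGrid n) :=
          Finset.sum_le_sum (fun st _ => hS st)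
      _ = 81 * indequeNum (triGrid n) := by simp
  rw [Nat.card_eq_fintype_card]
  omega

lemma upper_set (n : ℕ) (S : Finset (Vert n)) (hS : IsIndeque (triGrid n) (S : Set (Vert n))) :
    9 * S.card ≤ 2 * ((n + 4) * (n + 5)) := by
  classical
  rw [indeque_iff] at hS
  let T : Finset (ℤ × ℤ) := S.image Subtype.val
  let x : ℤ → ℤ → Bool := fun a b => decide ((a, b) ∈ T)
  have hx : P3free x := by
    intro a b c d e f h
    rw [Bool.eq_false_iff]
    intro hh
    simp only [x, T, Bool.and_eq_true, decide_eq_true_eq, Finset.mem_image] at hh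
    obtain ⟨⟨⟨p, hp, ep⟩, ⟨q, hq, eq⟩⟩, ⟨r, hr, er⟩⟩ := hh
    unfold isP3 at h
    simp only [Bool.and_eq_true, Bool.not_eq_true'] at h
    obtain ⟨⟨⟨h1, h2⟩, h3⟩, h4⟩ := h
    have := hS p hp q hq r hr (by rw [adj_iff, ep, eq]; exact h1) (by rw [adj_iff, eq, er]; exact h2)
      (by
        intro e'
        rw [e', er] at ep
        have e1 := congrArg Prod.fst ep
        have e2 := congrArg Prod.snd ep
        simp only at e1 e2
        rw [e1, e2] at h4
        simp at h4)
    rw [adj_iff, ep, er] at this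
    rw [this] at h3
    exact absurd h3 (by decide)
  let B : Finset (ℤ × ℤ) := (tri (n + 3)).image (· + (-1, -1))
  have memB : ∀ w : ℤ × ℤ, w ∈ B ↔ -1 ≤ w.1 ∧ -1 ≤ w.2 ∧ w.1 + w.2 ≤ n + 1 := by
    intro w
    simp only [B, Finset.mem_image, mem_tri]
    constructor
    · rintro ⟨p, ⟨h1, h2, h3⟩, rfl⟩
      simp only [Prod.fst_add, Prod.snd_add]
      push_cast at h3
      omega
    · rintro ⟨h1, h2, h3⟩
      refine ⟨(w.1 + 1, w.2 + 1), ⟨by simp only; omega, by simp only; omega, ?_⟩, ?_⟩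
      · push_cast; omega
      · ext <;> simp
  have memT : ∀ w ∈ T, 0 ≤ w.1 ∧ 0 ≤ w.2 ∧ w.1 + w.2 ≤ (n : ℤ) := by
    intro w hw
    simp only [T, Finset.mem_image] at hw
    obtain ⟨p, -, rfl⟩ := hw
    exact p.2
  have hd := discharge hx B (by
    intro w hw u v huv
    rw [Bool.eq_false_iff]
    intro hh
    simp only [x, decide_eq_true_eq] at hh
    have := memT _ hh
    apply hw
    rw [memB]
    unfold adjB at huv
    simp only [Bool.or_eq_true, Bool.and_eq_true, beq_iff_eq] at huv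
    simp only at this
    omega)
  have hB : 2 * B.card = (n + 4) * (n + 5) := by
    rw [Finset.card_image_of_injective _ (add_left_injective _), card_tri]
  have hT : B.filter (fun w => x w.1 w.2 = true) = T := by
    ext w
    simp only [x, Finset.mem_filter, decide_eq_true_eq]
    constructor
    · exact fun h => h.2
    · intro h
      refine ⟨?_, h⟩
      have := memT w h
      rw [memB]
      omega
  have hTS : T.card = S.card := Finset.card_image_of_injective _ Subtype.val_injective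
  rw [hT, hTS] at hd
  omega

lemma upper (n : ℕ) : 9 * indequeNum (triGrid n) ≤ 2 * ((n + 4) * (n + 5)) := by
  have := finite_vert n
  have hne : {k : ℕ | ∃ S : Finset (Vert n), IsIndeque (triGrid n) (S : Set (Vert n)) ∧
      S.card = k}.Nonempty := by
    refine ⟨0, ∅, ?_, rfl⟩
    rw [indeque_iff]
    intro a ha
    simp at ha
  obtain ⟨S, hS, h⟩ := Nat.sSup_mem hne (bdd _)
  unfold indequeNum
  rw [← h]
  exact upper_set n S hS

theorem result :
    Tendsto (fun n : ℕ => (indequeNum (triGrid n) : ℝ) / (Nat.card (Vert n) : ℝ)) atTop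
      (𝓝 (4 / 9)) := by
  have hlim : Tendsto (fun n : ℕ => (4 / 9 : ℝ) + 4 / ((n : ℝ) + 1)) atTop (𝓝 (4 / 9)) := by
    have h0 : Tendsto (fun n : ℕ => (4 : ℝ) / ((n : ℝ) + 1)) atTop (𝓝 0) :=
      tendsto_const_nhds.div_atTop (tendsto_atTop_add_const_right _ _ tendsto_natCast_atTop_atTop)
    simpa using tendsto_const_nhds.add h0
  refine tendsto_of_tendsto_of_tendsto_of_le_of_le tendsto_const_nhds hlim ?_ ?_
  · intro n
    have hc : (2 : ℝ) * (Nat.card (Vert n) : ℝ) = ((n : ℝ) + 1) * (n + 2) := by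
      exact_mod_cast card_vert n
    have hn : (0 : ℝ) ≤ n := Nat.cast_nonneg n
    have hpos : (0 : ℝ) < (Nat.card (Vert n) : ℝ) := by nlinarith
    have hl : (4 : ℝ) * (Nat.card (Vert n) : ℝ) ≤ 9 * (indequeNum (triGrid n) : ℝ) := by
      exact_mod_cast lower n
    simp only
    rw [le_div_iff₀ hpos]
    linarith
  · intro n
    have hc : (2 : ℝ) * (Nat.card (Vert n) : ℝ) = ((n : ℝ) + 1) * (n + 2) := by
      exact_mod_cast card_vert n
    have hn : (0 : ℝ) ≤ n := Nat.cast_nonneg n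
    have hpos : (0 : ℝ) < (Nat.card (Vert n) : ℝ) := by nlinarith
    have hu : (9 : ℝ) * (indequeNum (triGrid n) : ℝ) ≤ 2 * (((n : ℝ) + 4) * (n + 5)) := by
      exact_mod_cast upper n
    simp only
    rw [div_le_iff₀ hpos]
    have e : ((4 / 9 : ℝ) + 4 / ((n : ℝ) + 1)) * (Nat.card (Vert n) : ℝ) =
        2 / 9 * (((n : ℝ) + 1) * (n + 2)) + 2 * (n + 2) := by
      have : (Nat.card (Vert n) : ℝ) = ((n : ℝ) + 1) * (n + 2) / 2 := by linarith
      rw [this]
      field_simp
      ring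
    rw [e]
    nlinarith

end Pool.Agent.Results.MP_d2ef9c_co.FourNinths
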